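import Mathlib

set_option autoImplicit false

/-! Crude Stirling bounds (helper94). -/

namespace Pool.Agent.V7H94.CC

lemma stir_lo (k : ℕ) : (k : ℝ) * Real.log k - k ≤ Real.log (k.factorial : ℝ) := by
  induction k with
  | zero => simp
  | succ k ih =>
    rw [Nat.factorial_succ]
    push_cast
    have hk1 : (0 : ℝ) < (k : ℝ) + 1 := by positivity
    have hf : (0 : ℝ) < (k.factorial : ℝ) := by exact_mod_cast k.factorial_pos
    rw [Real.log_mul hk1.ne' hf.ne']
    have h1 : (k : ℝ) * Real.log ((k : ℝ) + 1) ≤ k * Real.log k + 1 := by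
      rcases Nat.eq_zero_or_pos k with rfl | hk
      · simp
      · have hk0 : (0 : ℝ) < (k : ℝ) := by exact_mod_cast hk
        have h2 : Real.log (((k : ℝ) + 1) / k) ≤ ((k : ℝ) + 1) / k - 1 :=
          Real.log_le_sub_one_of_pos (by positivity)
        rw [Real.log_div hk1.ne' hk0.ne'] at h2
        have h3 : ((k : ℝ) + 1) / k - 1 = 1 / k := by field_simp; ring
        rw [h3] at h2
        have h4 : (k : ℝ) * (Real.log ((k : ℝ) + 1) - Real.log k) ≤ k * (1 / k) :=
          mul_le_mul_of_nonneg_left h2 hk0.le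
        rw [mul_one_div_cancel hk0.ne'] at h4
        linarith
    linarith

lemma stir_up (k : ℕ) (hk : 1 ≤ k) :
    Real.log (k.factorial : ℝ) ≤ (k : ℝ) * Real.log k - k + Real.log k + 1 := by
  induction k, hk using Nat.le_induction with
  | base => simp
  | succ k hk ih =>
    rw [Nat.factorial_succ]
    push_cast
    have hk0 : (0 : ℝ) < (k : ℝ) := by exact_mod_cast hk
    have hk1 : (0 : ℝ) < (k : ℝ) + 1 := by positivity
    have hf : (0 : ℝ) < (k.factorial : ℝ) := by exact_mod_cast k.factorial_pos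
    rw [Real.log_mul hk1.ne' hf.ne']
    have h2 : Real.log ((k : ℝ) / ((k : ℝ) + 1)) ≤ (k : ℝ) / ((k : ℝ) + 1) - 1 :=
      Real.log_le_sub_one_of_pos (by positivity)
    rw [Real.log_div hk0.ne' hk1.ne'] at h2
    have h3 : (k : ℝ) / ((k : ℝ) + 1) - 1 = -(1 / ((k : ℝ) + 1)) := by field_simp; ring
    rw [h3] at h2
    have h4 : ((k : ℝ) + 1) * (1 / ((k : ℝ) + 1)) ≤ ((k : ℝ) + 1) * (Real.log ((k : ℝ) + 1) - Real.log k) :=
      mul_le_mul_of_nonneg_left (by linarith) hk1.le
    rw [mul_one_div_cancel hk1.ne'] at h4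
    linarith

end Pool.Agent.V7H94.CC
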