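import Pool.Agent.V7H41.CC.Spec
import Pool.Agent.V7H94.CC.Stir

set_option autoImplicit false

/-! LOWL of project CC (helper94). -/

open Finset Pool.Agent.V7H41.CC

namespace Pool.Agent.V7H94.CC

lemma fin_low {m fm f3 f2 Lm L3m L2m Lm1 LN Ln LB c Lt l3 l2 lc : ℝ}
    (s1 : m * Lm - m ≤ fm)
    (s2 : f3 ≤ (3 * m - 1) * L3m - (3 * m - 1) + L3m + 1)
    (s3 : f2 ≤ 2 * m * L2m - 2 * m + L2m + 1)
    (l3m : L3m ≤ l3 + Lm) (l2m : L2m = l2 + Lm)
    (lm1 : (m - 1) * Lm - 1 ≤ (m - 1) * Lm1)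
    (lN : (m - 1) * LN ≤ (m - 1) * Ln)
    (lBm : (3 * m - 1) * (Ln + c) - 2 ≤ (3 * m - 1) * LB)
    (lj : (3 * m - 1) * L3m ≤ (3 * m - 1) * (l3 + Lm))
    (lc0 : c ≤ 0) (lm : Lm ≤ 4 + Lt) (hl3 : l3 ≤ 2) (hl30 : 0 ≤ l3) (hl2 : l2 ≤ 1) (ln0 : 0 ≤ Ln)
    (lch : (3 * m - 1) * LB - f3 ≤ lc) (hLt : 0 ≤ Lt) :
    m * (2 * Ln - 3 * Lm + 4 - l2 - 3 * l3 + 3 * c) - 20 * (Lt + 1) ≤
      fm + m * l2 + lc + (m - 1) * Lm1 - (f2 + (m - 1) * LN) := by
  subst l2m
  linarith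

theorem t_LOWL : S_LOWL := by
  refine ⟨1, 20, fun t _ ht n m N hn hm hN1 hN2 => ?_⟩
  have htR : (1 : ℝ) ≤ (t : ℝ) := by exact_mod_cast ht
  have ht0 : (0 : ℝ) < (t : ℝ) := by linarith
  have hL : 0 ≤ Real.log t := Real.log_nonneg htR
  have hnR : (n : ℝ) = 10000 * (t : ℝ) ^ 2 := by rw [hn]; push_cast; ring
  have hmR : (m : ℝ) = 28 * (t : ℝ) := by rw [hm]; push_cast; ring
  have hm28 : 28 ≤ m := by omega
  have hn0 : (0 : ℝ) < (n : ℝ) := by rw [hnR]; positivity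
  have hm0 : (0 : ℝ) < (m : ℝ) := by rw [hmR]; positivity
  have hsq : m ^ 2 = 784 * (t * t) := by rw [hm]; ring
  have hnn : n = 10000 * (t * t) := by rw [hn]; ring
  have htt : t ≤ t * t := Nat.le_mul_self t
  obtain ⟨A, hA⟩ : ∃ A : ℕ, A = N - m ^ 2 + m - 1 := ⟨_, rfl⟩
  obtain ⟨B, hB⟩ : ∃ B : ℕ, B = A + 1 - (3 * m - 1) := ⟨_, rfl⟩
  have hBlow : 9216 * (t * t) ≤ B + 56 * t + 3 := by
    rw [hsq] at hA
    omega
  rw [← hA]
  have hNpos : (0 : ℝ) < (N : ℝ) := by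
    have : 1 ≤ N := by omega
    exact_mod_cast this
  have ht2 : (t : ℝ) ≤ (t : ℝ) ^ 2 := by nlinarith
  have hBR : 9216 * (t : ℝ) ^ 2 - 59 * t ≤ (B : ℝ) := by
    have h1 : (9216 : ℝ) * ((t : ℝ) * t) ≤ (B : ℝ) + 56 * t + 3 := by exact_mod_cast hBlow
    have h2 : (t : ℝ) ^ 2 = t * t := sq _
    linarith
  have hB0 : (0 : ℝ) < (B : ℝ) := by linarith
  -- the binomial coefficient
  have hch : (B : ℝ) ^ (3 * m - 1) / ((3 * m - 1).factorial : ℝ) ≤ (A.choose (3 * m - 1) : ℝ) := by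
    have := Nat.pow_le_choose (α := ℝ) (3 * m - 1) A
    rw [hB]
    exact this
  have hf1 : (0 : ℝ) < ((3 * m - 1).factorial : ℝ) := by exact_mod_cast Nat.factorial_pos _
  have hf2 : (0 : ℝ) < ((2 * m).factorial : ℝ) := by exact_mod_cast Nat.factorial_pos _
  have hf3 : (0 : ℝ) < (m.factorial : ℝ) := by exact_mod_cast Nat.factorial_pos _
  have hch0 : (0 : ℝ) < (A.choose (3 * m - 1) : ℝ) := lt_of_lt_of_le (by positivity) hch
  have hm1 : (0 : ℝ) < ((m - 1 : ℕ) : ℝ) := by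
    have : 1 ≤ m - 1 := by omega
    exact_mod_cast this
  rw [Real.log_div (by positivity) (by positivity), Real.log_mul (by positivity) (by positivity),
    Real.log_mul (by positivity) (by positivity), Real.log_mul (by positivity) (by positivity),
    Real.log_mul (by positivity) (by positivity), Real.log_pow, Real.log_pow, Real.log_pow]
  -- logs
  have e3m : ((3 * m - 1 : ℕ) : ℝ) = 3 * m - 1 := by
    rw [Nat.cast_sub (by omega)]; push_cast; ring
  have em1 : ((m - 1 : ℕ) : ℝ) = m - 1 := by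
    rw [Nat.cast_sub (by omega)]; push_cast; ring
  have lch : (3 * (m : ℝ) - 1) * Real.log B - Real.log ((3 * m - 1).factorial : ℝ) ≤
      Real.log (A.choose (3 * m - 1) : ℝ) := by
    have h1 := Real.log_le_log (by positivity) hch
    rw [Real.log_div (by positivity) (by positivity), Real.log_pow, e3m] at h1
    exact h1
  have s1 := stir_lo m
  have s2 := stir_up (3 * m - 1) (by omega)
  have s3 := stir_up (2 * m) (by omega)
  rw [e3m] at s2
  push_cast at s3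
  have l3m : Real.log (3 * (m : ℝ) - 1) ≤ Real.log 3 + Real.log m := by
    rw [← Real.log_mul (by norm_num) hm0.ne']
    exact Real.log_le_log (by linarith [(by exact_mod_cast hm28 : (28 : ℝ) ≤ (m : ℝ))]) (by linarith)
  have l2m : Real.log (2 * (m : ℝ)) = Real.log 2 + Real.log m := Real.log_mul (by norm_num) hm0.ne'
  have hmge : (28 : ℝ) ≤ (m : ℝ) := by exact_mod_cast hm28
  have lm1 : ((m : ℝ) - 1) * Real.log m - 1 ≤ ((m : ℝ) - 1) * Real.log (m - 1) := by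
    have hm1' : (0 : ℝ) < (m : ℝ) - 1 := by linarith
    have h2 : Real.log ((m : ℝ) / ((m : ℝ) - 1)) ≤ (m : ℝ) / ((m : ℝ) - 1) - 1 :=
      Real.log_le_sub_one_of_pos (by positivity)
    rw [Real.log_div hm0.ne' hm1'.ne'] at h2
    have h3 : (m : ℝ) / ((m : ℝ) - 1) - 1 = 1 / ((m : ℝ) - 1) := by field_simp; ring
    rw [h3] at h2
    have h4 : ((m : ℝ) - 1) * (Real.log m - Real.log (m - 1)) ≤ ((m : ℝ) - 1) * (1 / ((m : ℝ) - 1)) :=
      mul_le_mul_of_nonneg_left h2 hm1'.le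
    rw [mul_one_div_cancel hm1'.ne'] at h4
    linarith
  have lN : ((m : ℝ) - 1) * Real.log N ≤ ((m : ℝ) - 1) * Real.log n := by
    apply mul_le_mul_of_nonneg_left _ (by linarith)
    exact Real.log_le_log hNpos (by exact_mod_cast hN2)
  have lB : Real.log n + Real.log (1 - 0.28 ^ 2) - 1 / (78 * t) ≤ Real.log B := by
    have e1 : Real.log n + Real.log (1 - 0.28 ^ 2) = Real.log (9216 * (t : ℝ) ^ 2) := by
      rw [← Real.log_mul hn0.ne' (by norm_num), hnR]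
      congr 1
      norm_num
      ring
    rw [e1]
    have hQ : (0 : ℝ) < 9216 * (t : ℝ) ^ 2 := by positivity
    have h2 : Real.log (9216 * (t : ℝ) ^ 2 / B) ≤ 9216 * (t : ℝ) ^ 2 / B - 1 :=
      Real.log_le_sub_one_of_pos (by positivity)
    rw [Real.log_div hQ.ne' hB0.ne'] at h2
    have h3 : 9216 * (t : ℝ) ^ 2 / B - 1 ≤ 1 / (78 * t) := by
      rw [div_sub_one hB0.ne', div_le_div_iff₀ hB0 (by positivity)]
      have a1 : 9216 * (t : ℝ) ^ 2 - B ≤ 59 * t := by linarith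
      have a2 : (9216 * (t : ℝ) ^ 2 - B) * (78 * t) ≤ 59 * t * (78 * t) :=
        mul_le_mul_of_nonneg_right a1 (by positivity)
      have a3 : 59 * (t : ℝ) * (78 * t) = 4602 * t ^ 2 := by ring
      linarith
    linarith
  have lBm : (3 * (m : ℝ) - 1) * (Real.log n + Real.log (1 - 0.28 ^ 2)) - 2 ≤
      (3 * (m : ℝ) - 1) * Real.log B := by
    have h1 := mul_le_mul_of_nonneg_left lB (by linarith : (0 : ℝ) ≤ 3 * (m : ℝ) - 1)
    have h2 : (3 * (m : ℝ) - 1) * (1 / (78 * t)) ≤ 2 := by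
      rw [mul_one_div, div_le_iff₀ (by positivity), hmR]
      linarith
    linarith
  have lj : (3 * (m : ℝ) - 1) * Real.log (3 * (m : ℝ) - 1) ≤
      (3 * (m : ℝ) - 1) * (Real.log 3 + Real.log m) :=
    mul_le_mul_of_nonneg_left l3m (by linarith)
  have l928 : Real.log (1 - 0.28 ^ 2) ≤ 0 := Real.log_nonpos (by norm_num) (by norm_num)
  have lm : Real.log m ≤ 4 + Real.log t := by
    rw [hmR, Real.log_mul (by norm_num) ht0.ne']
    have : Real.log 28 ≤ 4 := by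
      rw [Real.log_le_iff_le_exp (by norm_num)]
      have h1 : (2.7 : ℝ) < Real.exp 1 := by linarith [Real.exp_one_gt_d9]
      have h2 : Real.exp 4 = Real.exp 1 ^ 4 := by rw [← Real.exp_nat_mul]; norm_num
      rw [h2]
      have h3 : (2.7 : ℝ) ^ 4 ≤ Real.exp 1 ^ 4 := pow_le_pow_left₀ (by norm_num) h1.le 4
      norm_num at h3 ⊢
      linarith
    linarith
  have l3 : Real.log 3 ≤ 2 := by
    have := Real.log_le_sub_one_of_pos (x := 3) (by norm_num)
    linarith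
  have l30 : 0 ≤ Real.log 3 := Real.log_nonneg (by norm_num)
  have l2 : Real.log 2 ≤ 1 := by
    have := Real.log_le_sub_one_of_pos (x := 2) (by norm_num)
    linarith
  have ln0 : 0 ≤ Real.log n := Real.log_nonneg (by rw [hnR]; nlinarith)
  rw [em1]
  exact fin_low s1 s2 s3 l3m l2m lm1 lN lBm lj l928 lm l3 l30 l2 ln0 lch hL

end Pool.Agent.V7H94.CC
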